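import Mathlib

set_option autoImplicit false

namespace Pool.Agent.Results.MP_bd7f44_an.LevelSet

open scoped RealInnerProductSpace
open Real Filter

abbrev E := EuclideanSpace ℝ (Fin 2)

/-- The Bregman distance of a real-valued function on the plane. -/
noncomputable def bregman (f : E → ℝ) (x y : E) : ℝ := f x - f y - ⟪gradient f y, x - y⟫

/-- Every point of the plane has exactly one left Bregman projection onto `C`. -/
def LeftChebyshev (f : E → ℝ) (C : Set E) : Prop :=
  ∀ y : E, ∃! x : E, x ∈ C ∧ ∀ z ∈ C, bregman f x y ≤ bregman f z y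

noncomputable def F (x : E) : ℝ := exp (x 0) + exp (x 1)

lemma dx (i : Fin 2) (z : E) :
    HasFDerivAt (fun z : E => z i) (EuclideanSpace.proj (𝕜 := ℝ) i : E →L[ℝ] ℝ) z :=
  (EuclideanSpace.proj (𝕜 := ℝ) i : E →L[ℝ] ℝ).hasFDerivAt

lemma breg (x y : E) : bregman F x y =
    F x - F y - (exp (y 0) * (x 0 - y 0) + exp (y 1) * (x 1 - y 1)) := by
  have h : fderiv ℝ F y = _ := HasFDerivAt.fderiv (f := F) ((dx 0 y).exp.add (dx 1 y).exp)
  unfold bregman gradient
  rw [InnerProductSpace.toDual_symm_apply, h]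
  simp

lemma tang (a b : ℝ) : exp a * (b - a) ≤ exp b - exp a := by
  have h := add_one_le_exp (b - a)
  have e : exp b = exp a * exp (b - a) := by rw [← exp_add]; ring_nf
  nlinarith [exp_pos a]

lemma tang' (a b : ℝ) (hab : b ≠ a) : exp a * (b - a) < exp b - exp a := by
  have h := add_one_lt_exp (sub_ne_zero.mpr hab)
  have e : exp b = exp a * exp (b - a) := by rw [← exp_add]; ring_nf
  nlinarith [exp_pos a]

lemma ne_coord {x z : E} (h : z ≠ x) : z 0 ≠ x 0 ∨ z 1 ≠ x 1 := by
  by_contra hc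
  push Not at hc
  apply h
  ext i
  fin_cases i
  · exact hc.1
  · exact hc.2

lemma F_strict : StrictConvexOn ℝ Set.univ F := by
  refine ⟨convex_univ, fun x _ y _ hxy a b ha hb hab => ?_⟩
  have s := fun i => strictConvexOn_exp.2 (Set.mem_univ (x i)) (Set.mem_univ (y i))
  have w := fun i => convexOn_exp.2 (Set.mem_univ (x i)) (Set.mem_univ (y i)) ha.le hb.le hab
  simp only [F, smul_eq_mul, PiLp.add_apply, PiLp.smul_apply] at *
  rcases ne_coord hxy with h | h
  · linarith [s 0 h ha hb hab, w 1]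
  · linarith [s 1 h ha hb hab, w 0]

lemma cheb : LeftChebyshev F {x | F x = 2} := by
  intro y
  have hF : 0 < F y := by unfold F; positivity
  set l := log (2 / F y)
  have hl : exp l = 2 / F y := exp_log (by positivity)
  let x : E := !₂[y 0 + l, y 1 + l]
  have e0 : exp (x 0) = exp (y 0) * (2 / F y) := by simp [x, exp_add, hl]
  have e1 : exp (x 1) = exp (y 1) * (2 / F y) := by simp [x, exp_add, hl]
  have hx : F x = 2 := by
    have : F x = F y * (2 / F y) := by rw [F, e0, e1, F]; ring
    rw [this]; field_simp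
  have key : ∀ z, F z = 2 → z ≠ x → bregman F x y < bregman F z y := by
    intro z hz hzx
    have h1 : exp (x 0) * (z 0 - x 0) + exp (x 1) * (z 1 - x 1) < 0 := by
      unfold F at hz hx
      rcases ne_coord hzx with h | h
      · linarith [tang' _ _ h, tang (x 1) (z 1)]
      · linarith [tang' _ _ h, tang (x 0) (z 0)]
    rw [e0, e1] at h1
    have h2 : exp (y 0) * (z 0 - x 0) + exp (y 1) * (z 1 - x 1) < 0 := by
      by_contra hc
      have := mul_nonneg (not_lt.mp hc) (show 0 ≤ 2 / F y by positivity)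
      nlinarith
    rw [breg, breg, hx, hz]
    linarith
  refine ⟨x, ⟨hx, fun z hz => ?_⟩, fun z hz => ?_⟩
  · by_cases h : z = x
    · rw [h]
    · exact (key z hz h).le
  · by_contra h
    exact (key z hz.1 h).not_ge (hz.2 x hx)

theorem result :
    ∃ (f : E → ℝ) (C : Set E), ContDiff ℝ (⊤ : ℕ∞) f ∧ StrictConvexOn ℝ Set.univ f ∧
      ¬ Tendsto (fun x => f x / ‖x‖) (cocompact E) atTop ∧
      C.Nonempty ∧ IsClosed C ∧ LeftChebyshev f C ∧ ¬ Convex ℝ C := by
  have hc : ContDiff ℝ (⊤ : ℕ∞) F :=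
    ((EuclideanSpace.proj (𝕜 := ℝ) 0 : E →L[ℝ] ℝ).contDiff.exp).add
      ((EuclideanSpace.proj (𝕜 := ℝ) 1 : E →L[ℝ] ℝ).contDiff.exp)
  have h0 : F 0 = 2 := by simp [F]; norm_num
  refine ⟨F, {x | F x = 2}, hc, F_strict, fun h => ?_, ⟨0, h0⟩,
    isClosed_eq hc.continuous continuous_const, cheb, fun h => ?_⟩
  · have h1 := h.eventually (eventually_gt_atTop 2)
    obtain ⟨K, hK, hK2⟩ := mem_cocompact.mp h1
    obtain ⟨R, hR⟩ := hK.isBounded.exists_norm_le
    let x : E := EuclideanSpace.single 0 (-(|R| + 1))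
    have hn : ‖x‖ = |R| + 1 := by
      simp only [x, EuclideanSpace.norm_single, norm_neg, Real.norm_eq_abs]
      exact abs_of_pos (by positivity)
    have h2 : 2 < F x / ‖x‖ := hK2 fun hx => by linarith [hR x hx, le_abs_self R]
    have h3 : F x ≤ 2 := by
      have : exp (-(|R| + 1)) ≤ 1 := exp_le_one_iff.mpr (by linarith [abs_nonneg R])
      simp only [F, x]
      simp only [EuclideanSpace.single_apply]
      simp only [if_true, one_ne_zero, if_false, exp_zero]
      linarith
    rw [lt_div_iff₀ (by rw [hn]; positivity), hn] at h2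
    linarith [abs_nonneg R]
  · let x : E := !₂[log (1 / 2), log (3 / 2)]
    have hx : F x = 2 := by
      simp only [F, x, Matrix.cons_val_zero, Matrix.cons_val_one]
      rw [exp_log (by norm_num), exp_log (by norm_num)]; norm_num
    have hne : x ≠ 0 := fun h => by
      have : log (3 / 2) = 0 := by simpa [x] using congrArg (fun z : E => z 1) h
      linarith [log_pos (show (1:ℝ) < 3 / 2 by norm_num)]
    have h1 := F_strict.2 (Set.mem_univ x) (Set.mem_univ 0) hne (show (0:ℝ) < 1 / 2 by norm_num)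
      (show (0:ℝ) < 1 / 2 by norm_num) (by norm_num)
    have h2 : F _ = 2 := h hx h0 (show (0:ℝ) ≤ 1 / 2 by norm_num)
      (show (0:ℝ) ≤ 1 / 2 by norm_num) (by norm_num)
    rw [h2, hx, h0] at h1
    norm_num at h1

end Pool.Agent.Results.MP_bd7f44_an.LevelSet
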